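import Pool.Agent.Y380.LN.Main

set_option autoImplicit false

namespace Pool.Agent.Results.MP_ad2f8c_co.DimensionPlusOne

/-- `x` is a point of local non-convexity of `E`: a boundary point such that no ball around it
meets `E` in a convex set -/
def IsLNC {d : ℕ} (E : Set (EuclideanSpace ℝ (Fin d))) (x : EuclideanSpace ℝ (Fin d)) : Prop :=
  x ∈ frontier E ∧ ∀ r : ℝ, 0 < r → ¬ Convex ℝ (Metric.ball x r ∩ E)

/-- `x` is clearly visible from `y`: the point `y` sees every point of `E` near `x` -/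
def ClearlyVisible {d : ℕ} (E : Set (EuclideanSpace ℝ (Fin d)))
    (y x : EuclideanSpace ℝ (Fin d)) : Prop :=
  ∃ r : ℝ, 0 < r ∧ ∀ z ∈ Metric.ball x r ∩ E, segment ℝ y z ⊆ E

/-- the property `C_n`: any `n` points of local non-convexity are clearly visible from a common
point of `E` -/
def PropertyC {d : ℕ} (n : ℕ) (E : Set (EuclideanSpace ℝ (Fin d))) : Prop :=
  ∀ x : Fin n → EuclideanSpace ℝ (Fin d), (∀ i, IsLNC E (x i)) →
    ∃ y ∈ E, ∀ i, ClearlyVisible E y (x i)

/-- Every compact connected subset of `ℝ^d` with the property `C_{d+1}` is starshaped. -/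
theorem result (d : ℕ) (E : Set (EuclideanSpace ℝ (Fin d))) (hE : IsCompact E)
    (hc : IsConnected E) (hC : PropertyC (d + 1) E) :
    ∃ y ∈ E, ∀ x ∈ E, segment ℝ y x ⊆ E := by
  apply Pool.Agent.Y380.LN.main hE hc
  rw [finrank_euclideanSpace_fin]
  exact hC

end Pool.Agent.Results.MP_ad2f8c_co.DimensionPlusOne
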